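import Pool.Agent.H82.KT.TC

/-!
# CNA: two pairs of times with almost equal `Ph` (problem MP_ee74d2_an, theorem KT)
-/

set_option autoImplicit false

namespace Pool.Agent.H96.KTN

open Finset Pool.Agent.H82.KT

open scoped Classical in
/-- collisions of a map on a weighted finite set -/
theorem cna_coll {ρ : Type} (R : Finset ρ) (w : ρ → ℝ) (c : ρ → ℤ) (C : Finset ℤ)
    (hw : ∀ r ∈ R, 0 ≤ w r) (hc : ∀ r ∈ R, w r ≠ 0 → c r ∈ C) :
    (∑ r ∈ R, w r) ^ 2 ≤
      (C.card : ℝ) * ∑ r ∈ R, ∑ r' ∈ R, (if c r = c r' then w r * w r' else 0) := by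
  have h1 : ∑ r ∈ R, w r = ∑ k ∈ C, ∑ r ∈ R, (if c r = k then w r else 0) := by
    rw [sum_comm]
    refine sum_congr rfl fun r hr => ?_
    by_cases h0 : w r = 0
    · simp [h0]
    · rw [sum_ite_eq C (c r) (fun _ => w r), if_pos (hc r hr h0)]
  rw [h1]
  refine (sq_sum_le_card_mul_sum_sq).trans ?_
  refine mul_le_mul_of_nonneg_left ?_ (Nat.cast_nonneg _)
  calc ∑ k ∈ C, (∑ r ∈ R, (if c r = k then w r else 0)) ^ 2
      = ∑ k ∈ C, ∑ r ∈ R, ∑ r' ∈ R,
          (if c r = k then w r else 0) * (if c r' = k then w r' else 0) := by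
        refine sum_congr rfl fun k _ => ?_
        rw [sq, sum_mul_sum]
    _ = ∑ r ∈ R, ∑ r' ∈ R, ∑ k ∈ C,
          (if c r = k then w r else 0) * (if c r' = k then w r' else 0) := by
        rw [sum_comm]
        refine sum_congr rfl fun r _ => ?_
        rw [sum_comm]
    _ ≤ ∑ r ∈ R, ∑ r' ∈ R, (if c r = c r' then w r * w r' else 0) := by
        refine sum_le_sum fun r hr => sum_le_sum fun r' hr' => ?_
        have h2 : ∀ k ∈ C, (if c r = k then w r else 0) * (if c r' = k then w r' else 0) =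
            if c r = k then (if c r = c r' then w r * w r' else 0) else 0 := by
          intro k _
          by_cases h3 : c r = k
          · by_cases h4 : c r' = k
            · simp [h3, h4]
            · have h5 : ¬ k = c r' := fun h => h4 h.symm
              simp [h3, h4, h5]
          · simp [h3]
        rw [sum_congr rfl h2,
          sum_ite_eq C (c r) (fun _ => if c r = c r' then w r * w r' else 0)]
        have h6 : 0 ≤ (if c r = c r' then w r * w r' else 0) := by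
          split_ifs
          · exact mul_nonneg (hw r hr) (hw r' hr')
          · exact le_rfl
        split_ifs at h6 ⊢ <;> first | exact le_rfl | exact h6

/-- the values of `J ^ 2 Ph` -/
theorem cna_Ph {J ω : ℝ} (hJ : 1 ≤ J) (hω : 0 < ω) {s x a b : ℤ} (hb : |(b : ℝ) - x| ≤ J)
    (h : Adm ω J s x a b) : |J ^ 2 * Ph s x a b| ≤ J / ω ^ 2 := by
  obtain ⟨-, h1, h2, -⟩ := h
  have hJ0 : 0 < J := by linarith
  have hωJ : 0 < ω * J := mul_pos hω hJ0
  unfold Ph
  rw [abs_mul, abs_div, abs_mul, abs_of_pos (by positivity : 0 < J ^ 2), ← mul_div_assoc]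
  have h3 : (ω * J) * (ω * J) ≤ |(b : ℝ) - s| * |(a : ℝ) - s| :=
    mul_le_mul h2.le h1.le hωJ.le (abs_nonneg _)
  have h4 : 0 < |(b : ℝ) - s| * |(a : ℝ) - s| := lt_of_lt_of_le (mul_pos hωJ hωJ) h3
  rw [div_le_div_iff₀ h4 (by positivity)]
  calc J ^ 2 * |(b : ℝ) - x| * ω ^ 2 ≤ J ^ 2 * J * ω ^ 2 := by gcongr
    _ = J * ((ω * J) * (ω * J)) := by ring
    _ ≤ J * (|(b : ℝ) - s| * |(a : ℝ) - s|) := by gcongr

/-- the number of the values of the floor of `J ^ 2 Ph` -/
theorem cna_card {M : ℝ} (hM : 1 ≤ M) :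
    ((Icc ⌊-M⌋ ⌊M⌋).card : ℝ) ≤ 4 * M := by
  have h0 : ⌊-M⌋ ≤ ⌊M⌋ + 1 := (Int.floor_le_floor (by linarith : -M ≤ M)).trans (by linarith)
  have h1 : ((Icc ⌊-M⌋ ⌊M⌋).card : ℤ) = ⌊M⌋ + 1 - ⌊-M⌋ := Int.card_Icc_of_le _ _ h0
  have h2 : ((Icc ⌊-M⌋ ⌊M⌋).card : ℝ) = ⌊M⌋ + 1 - ⌊-M⌋ := by
    exact_mod_cast h1
  have h3 := Int.floor_le M
  have h4 := Int.lt_floor_add_one (-M)
  rw [h2]
  linarith

open scoped Classical in
/-- four sums of products -/
theorem cna_four (I : Finset ℤ) (h : ℤ → ℝ) (B : ℤ → ℤ → ℝ) (E n : ℝ)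
    (hn : n = ∑ u ∈ I, h u) (hB : ∑ v ∈ I, ∑ u ∈ I, B u v ≤ E) :
    ∑ s ∈ I, ∑ x ∈ I, ∑ a ∈ I, ∑ b ∈ I,
      (B s x * (h a * h b) + B a s * (h x * h b) + B b s * (h x * h a) + B b x * (h s * h a)) ≤
      4 * (E * n ^ 2) := by
  have e1 : ∑ s ∈ I, ∑ x ∈ I, ∑ a ∈ I, ∑ b ∈ I, B s x * (h a * h b) =
      (∑ v ∈ I, ∑ u ∈ I, B u v) * n ^ 2 := by
    rw [sum_comm, sum_mul]
    refine sum_congr rfl fun v _ => ?_
    rw [sum_mul]
    refine sum_congr rfl fun u _ => ?_
    rw [sq, hn, sum_mul_sum, mul_sum]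
    refine sum_congr rfl fun a _ => ?_
    rw [mul_sum]
  have e2 : ∑ s ∈ I, ∑ x ∈ I, ∑ a ∈ I, ∑ b ∈ I, B a s * (h x * h b) =
      (∑ v ∈ I, ∑ u ∈ I, B u v) * n ^ 2 := by
    rw [sum_mul]
    refine sum_congr rfl fun s _ => ?_
    rw [sum_comm, sum_mul]
    refine sum_congr rfl fun a _ => ?_
    rw [sq, hn, sum_mul_sum, mul_sum]
    refine sum_congr rfl fun x _ => ?_
    rw [mul_sum]
  have e3 : ∑ s ∈ I, ∑ x ∈ I, ∑ a ∈ I, ∑ b ∈ I, B b s * (h x * h a) =
      (∑ v ∈ I, ∑ u ∈ I, B u v) * n ^ 2 := by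
    rw [sum_mul]
    refine sum_congr rfl fun s _ => ?_
    have : ∀ x ∈ I, ∑ a ∈ I, ∑ b ∈ I, B b s * (h x * h a) =
        ∑ a ∈ I, (h x * h a) * ∑ b ∈ I, B b s := by
      intro x _
      refine sum_congr rfl fun a _ => ?_
      rw [mul_sum]
      refine sum_congr rfl fun b _ => by ring
    rw [sum_congr rfl this]
    simp only [← sum_mul]
    rw [← sum_mul_sum, ← hn, sq, mul_comm]
  have e4 : ∑ s ∈ I, ∑ x ∈ I, ∑ a ∈ I, ∑ b ∈ I, B b x * (h s * h a) =
      (∑ v ∈ I, ∑ u ∈ I, B u v) * n ^ 2 := by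
    rw [sum_comm, sum_mul]
    refine sum_congr rfl fun x _ => ?_
    have : ∀ s ∈ I, ∑ a ∈ I, ∑ b ∈ I, B b x * (h s * h a) =
        ∑ a ∈ I, (h s * h a) * ∑ b ∈ I, B b x := by
      intro s _
      refine sum_congr rfl fun a _ => ?_
      rw [mul_sum]
      refine sum_congr rfl fun b _ => by ring
    rw [sum_congr rfl this]
    simp only [← sum_mul]
    rw [← sum_mul_sum, ← hn, sq, mul_comm]
  simp only [sum_add_distrib]
  rw [e1, e2, e3, e4]
  have := mul_le_mul_of_nonneg_right hB (sq_nonneg n)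
  linarith

open scoped Classical in
/-- the sum over the admissible times -/
theorem cna_w4 (I : Finset ℤ) (h : ℤ → ℝ) (J ω n : ℝ)
    (h0 : ∀ u ∈ I, 0 ≤ h u) (hn : n = ∑ u ∈ I, h u)
    (hs : ∀ v ∈ I, 16 * ∑ u ∈ I.filter (fun u : ℤ => |((u : ℝ) - v)| ≤ ω * J), h u ≤ n) :
    3 / 4 * n ^ 4 ≤ ∑ s ∈ I, ∑ x ∈ I, ∑ a ∈ I, ∑ b ∈ I,
      (h s * h x) * (if Adm ω J s x a b then h a * h b else 0) := by
  set B : ℤ → ℤ → ℝ := fun u v => if |((u : ℝ) - v)| ≤ ω * J then h u * h v else 0 with hBdef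
  have hB : ∑ v ∈ I, ∑ u ∈ I, B u v ≤ n ^ 2 / 16 := by
    calc ∑ v ∈ I, ∑ u ∈ I, B u v
        = ∑ v ∈ I, h v * ∑ u ∈ I.filter (fun u : ℤ => |((u : ℝ) - v)| ≤ ω * J), h u := by
          refine sum_congr rfl fun v _ => ?_
          rw [sum_filter, mul_sum]
          refine sum_congr rfl fun u _ => ?_
          simp only [hBdef]
          split_ifs
          · ring
          · ring
      _ ≤ ∑ v ∈ I, h v * (n / 16) := by
          refine sum_le_sum fun v hv => mul_le_mul_of_nonneg_left ?_ (h0 v hv)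
          have := hs v hv
          linarith
      _ = n ^ 2 / 16 := by
          rw [← sum_mul, ← hn]
          ring
  have h4 := cna_four I h B (n ^ 2 / 16) n hn hB
  have h5 : ∑ s ∈ I, ∑ x ∈ I, ∑ a ∈ I, ∑ b ∈ I, (h s * h x) * (h a * h b) = n ^ 4 := by
    have : ∀ s ∈ I, ∀ x ∈ I, ∑ a ∈ I, ∑ b ∈ I, (h s * h x) * (h a * h b) =
        (h s * h x) * (n * n) := by
      intro s _ x _
      rw [hn, sum_mul_sum, mul_sum]
      refine sum_congr rfl fun a _ => ?_
      rw [mul_sum]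
    rw [sum_congr rfl fun s hs' => sum_congr rfl fun x hx => this s hs' x hx]
    simp only [← sum_mul]
    rw [← sum_mul_sum, ← hn]
    ring
  have h6 : ∑ s ∈ I, ∑ x ∈ I, ∑ a ∈ I, ∑ b ∈ I, (h s * h x) * (h a * h b) -
      ∑ s ∈ I, ∑ x ∈ I, ∑ a ∈ I, ∑ b ∈ I,
      (B s x * (h a * h b) + B a s * (h x * h b) + B b s * (h x * h a) + B b x * (h s * h a)) ≤
      ∑ s ∈ I, ∑ x ∈ I, ∑ a ∈ I, ∑ b ∈ I,
      (h s * h x) * (if Adm ω J s x a b then h a * h b else 0) := by
    simp only [← sum_sub_distrib]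
    refine sum_le_sum fun s hs' => sum_le_sum fun x hx => sum_le_sum fun a ha =>
      sum_le_sum fun b hb => ?_
    have p1 := h0 s hs'
    have p2 := h0 x hx
    have p3 := h0 a ha
    have p4 := h0 b hb
    have q0 : ∀ u ∈ I, ∀ v ∈ I, 0 ≤ B u v := by
      intro u hu v hv
      simp only [hBdef]
      split_ifs
      · exact mul_nonneg (h0 u hu) (h0 v hv)
      · exact le_rfl
    have q1 : 0 ≤ B s x * (h a * h b) := mul_nonneg (q0 s hs' x hx) (mul_nonneg p3 p4)
    have q2 : 0 ≤ B a s * (h x * h b) := mul_nonneg (q0 a ha s hs') (mul_nonneg p2 p4)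
    have q3 : 0 ≤ B b s * (h x * h a) := mul_nonneg (q0 b hb s hs') (mul_nonneg p2 p3)
    have q4 : 0 ≤ B b x * (h s * h a) := mul_nonneg (q0 b hb x hx) (mul_nonneg p1 p3)
    by_cases hA : Adm ω J s x a b
    · rw [if_pos hA]
      linarith
    · rw [if_neg hA, mul_zero]
      unfold Adm at hA
      rw [not_and_or, not_and_or, not_and_or, not_lt, not_lt, not_lt, not_lt] at hA
      rcases hA with hA | hA | hA | hA
      · have : B s x = h s * h x := by simp only [hBdef]; rw [if_pos hA]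
        rw [this] at q1 ⊢
        linarith
      · have : B a s = h a * h s := by simp only [hBdef]; rw [if_pos hA]
        have e : B a s * (h x * h b) = h s * h x * (h a * h b) := by rw [this]; ring
        linarith
      · have : B b s = h b * h s := by simp only [hBdef]; rw [if_pos hA]
        have e : B b s * (h x * h a) = h s * h x * (h a * h b) := by rw [this]; ring
        linarith
      · have : B b x = h b * h x := by simp only [hBdef]; rw [if_pos hA]
        have e : B b x * (h s * h a) = h s * h x * (h a * h b) := by rw [this]; ring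
        linarith
  rw [h5] at h6
  have h7 : 4 * (n ^ 2 / 16 * n ^ 2) = n ^ 4 / 4 := by ring
  linarith

open scoped Classical in
theorem pf_CNA : T_CNA := by
  intro I h J ω n hJ hω hω1 hd h0 hn hn0 hs
  have hJ0 : 0 < J := by linarith
  have hω2 : 0 < ω ^ 2 := by positivity
  have hM : 1 ≤ J / ω ^ 2 := by
    rw [le_div_iff₀ hω2]
    have : ω ^ 2 ≤ 1 := by nlinarith
    linarith
  -- the sum for one pair `s, x`
  set T : ℤ → ℤ → ℝ := fun s x => ∑ a ∈ I, ∑ b ∈ I, ∑ a' ∈ I, ∑ b' ∈ I,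
    (if Adm ω J s x a b ∧ Adm ω J s x a' b' ∧ |Ph s x a b - Ph s x a' b'| ≤ 1 / J ^ 2 then
      h a * h b * (h a' * h b') else 0) with hT
  set A : ℤ → ℤ → ℝ := fun s x => ∑ a ∈ I, ∑ b ∈ I,
    (if Adm ω J s x a b then h a * h b else 0) with hAdef
  have hA : ∀ s ∈ I, ∀ x ∈ I, ω ^ 2 / (4 * J) * A s x ^ 2 ≤ T s x := by
    intro s hs' x hx
    have k1 := cna_coll (I ×ˢ I) (fun r => if Adm ω J s x r.1 r.2 then h r.1 * h r.2 else 0)
      (fun r => ⌊J ^ 2 * Ph s x r.1 r.2⌋) (Icc ⌊-(J / ω ^ 2)⌋ ⌊J / ω ^ 2⌋)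
      (by
        intro r hr
        rw [mem_product] at hr
        split_ifs
        · exact mul_nonneg (h0 _ hr.1) (h0 _ hr.2)
        · exact le_rfl)
      (by
        intro r hr hne
        rw [mem_product] at hr
        have hAd : Adm ω J s x r.1 r.2 := by
          by_contra hno
          exact hne (if_neg hno)
        have k2 := cna_Ph hJ hω (hd _ hr.2 _ hx) hAd
        rw [abs_le] at k2
        rw [mem_Icc]
        exact ⟨Int.floor_le_floor k2.1, Int.floor_le_floor k2.2⟩)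
    have k3 : ∑ r ∈ I ×ˢ I, (if Adm ω J s x r.1 r.2 then h r.1 * h r.2 else 0) = A s x := by
      rw [sum_product]
    have k4 : (∑ r ∈ I ×ˢ I, ∑ r' ∈ I ×ˢ I,
        (if ⌊J ^ 2 * Ph s x r.1 r.2⌋ = ⌊J ^ 2 * Ph s x r'.1 r'.2⌋ then
          (if Adm ω J s x r.1 r.2 then h r.1 * h r.2 else 0) *
          (if Adm ω J s x r'.1 r'.2 then h r'.1 * h r'.2 else 0) else 0)) ≤ T s x := by
      simp only [hT]
      rw [sum_product]
      refine sum_le_sum fun a ha => sum_le_sum fun b hb => ?_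
      rw [sum_product]
      refine sum_le_sum fun a' ha' => sum_le_sum fun b' hb' => ?_
      have p1 := h0 a ha
      have p2 := h0 b hb
      have p3 := h0 a' ha'
      have p4 := h0 b' hb'
      have pos : 0 ≤ (if Adm ω J s x a b ∧ Adm ω J s x a' b' ∧
          |Ph s x a b - Ph s x a' b'| ≤ 1 / J ^ 2 then h a * h b * (h a' * h b') else 0) := by
        split_ifs
        · positivity
        · exact le_rfl
      by_cases hf : ⌊J ^ 2 * Ph s x a b⌋ = ⌊J ^ 2 * Ph s x a' b'⌋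
      · rw [if_pos hf]
        by_cases c1 : Adm ω J s x a b
        · by_cases c2 : Adm ω J s x a' b'
          · have c3 : |Ph s x a b - Ph s x a' b'| ≤ 1 / J ^ 2 := by
              have c4 := Int.abs_sub_lt_one_of_floor_eq_floor hf
              rw [← mul_sub, abs_mul, abs_of_pos (by positivity : 0 < J ^ 2)] at c4
              rw [le_div_iff₀ (by positivity), mul_comm]
              exact c4.le
            rw [if_pos c1, if_pos c2, if_pos ⟨c1, c2, c3⟩]
          · rw [if_neg c2, mul_zero]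
            exact pos
        · rw [if_neg c1, zero_mul]
          exact pos
      · rw [if_neg hf]
        exact pos
    rw [k3] at k1
    have k5 : 0 ≤ (∑ r ∈ I ×ˢ I, ∑ r' ∈ I ×ˢ I,
        (if ⌊J ^ 2 * Ph s x r.1 r.2⌋ = ⌊J ^ 2 * Ph s x r'.1 r'.2⌋ then
          (if Adm ω J s x r.1 r.2 then h r.1 * h r.2 else 0) *
          (if Adm ω J s x r'.1 r'.2 then h r'.1 * h r'.2 else 0) else 0)) := by
      refine sum_nonneg fun r hr => sum_nonneg fun r' hr' => ?_
      rw [mem_product] at hr hr'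
      have p1 := h0 _ hr.1
      have p2 := h0 _ hr.2
      have p3 := h0 _ hr'.1
      have p4 := h0 _ hr'.2
      split_ifs <;> positivity
    have k6 := cna_card hM
    have k7 : A s x ^ 2 ≤ 4 * (J / ω ^ 2) * T s x :=
      k1.trans ((mul_le_mul_of_nonneg_right k6 k5).trans
        (mul_le_mul_of_nonneg_left k4 (by positivity)))
    calc ω ^ 2 / (4 * J) * A s x ^ 2 ≤ ω ^ 2 / (4 * J) * (4 * (J / ω ^ 2) * T s x) := by
          gcongr
      _ = T s x := by
          field_simp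
  have hW := cna_w4 I h J ω n h0 hn hs
  have hW' : ∑ s ∈ I, ∑ x ∈ I, ∑ a ∈ I, ∑ b ∈ I,
      (h s * h x) * (if Adm ω J s x a b then h a * h b else 0) =
      ∑ p ∈ I ×ˢ I, h p.1 * h p.2 * A p.1 p.2 := by
    rw [sum_product]
    refine sum_congr rfl fun s _ => sum_congr rfl fun x _ => ?_
    simp only [hAdef]
    rw [mul_sum]
    refine sum_congr rfl fun a _ => ?_
    rw [mul_sum]
  rw [hW'] at hW
  have hn2 : ∑ p ∈ I ×ˢ I, h p.1 * h p.2 = n ^ 2 := by
    rw [sum_product, sq, hn, sum_mul_sum]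
  have hCS : (∑ p ∈ I ×ˢ I, h p.1 * h p.2 * A p.1 p.2) ^ 2 ≤
      (∑ p ∈ I ×ˢ I, h p.1 * h p.2) * ∑ p ∈ I ×ˢ I, h p.1 * h p.2 * A p.1 p.2 ^ 2 := by
    refine sum_sq_le_sum_mul_sum_of_sq_le_mul _ ?_ ?_ ?_
    · intro p hp
      rw [mem_product] at hp
      exact mul_nonneg (h0 _ hp.1) (h0 _ hp.2)
    · intro p hp
      rw [mem_product] at hp
      exact mul_nonneg (mul_nonneg (h0 _ hp.1) (h0 _ hp.2)) (sq_nonneg _)
    · intro p _
      exact le_of_eq (by ring)
  rw [hn2] at hCS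
  set Q : ℝ := ∑ p ∈ I ×ˢ I, h p.1 * h p.2 * A p.1 p.2 ^ 2 with hQ
  have hQ1 : 9 / 16 * n ^ 6 ≤ Q := by
    have q1 : (3 / 4 * n ^ 4) ^ 2 ≤ n ^ 2 * Q :=
      (pow_le_pow_left₀ (by positivity) hW 2).trans hCS
    have q2 : n ^ 2 * (9 / 16 * n ^ 6) ≤ n ^ 2 * Q := by
      calc n ^ 2 * (9 / 16 * n ^ 6) = (3 / 4 * n ^ 4) ^ 2 := by ring
        _ ≤ n ^ 2 * Q := q1
    exact le_of_mul_le_mul_left q2 (by positivity)
  calc 9 / 64 * ω ^ 2 * n ^ 6 / J = ω ^ 2 / (4 * J) * (9 / 16 * n ^ 6) := by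
        field_simp
        norm_num
    _ ≤ ω ^ 2 / (4 * J) * Q := by gcongr
    _ = ∑ s ∈ I, ∑ x ∈ I, h s * h x * (ω ^ 2 / (4 * J) * A s x ^ 2) := by
        rw [hQ, mul_sum, sum_product]
        refine sum_congr rfl fun s _ => sum_congr rfl fun x _ => ?_
        ring
    _ ≤ ∑ s ∈ I, ∑ x ∈ I, h s * h x * T s x := by
        refine sum_le_sum fun s hs' => sum_le_sum fun x hx => ?_
        exact mul_le_mul_of_nonneg_left (hA s hs' x hx) (mul_nonneg (h0 s hs') (h0 x hx))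
    _ = _ := by
        refine sum_congr rfl fun s _ => sum_congr rfl fun x _ => ?_
        simp only [hT]
        rw [mul_sum]
        refine sum_congr rfl fun a _ => ?_
        rw [mul_sum]
        refine sum_congr rfl fun b _ => ?_
        rw [mul_sum]
        refine sum_congr rfl fun a' _ => ?_
        rw [mul_sum]
        refine sum_congr rfl fun b' _ => ?_
        split_ifs
        · ring
        · ring

end Pool.Agent.H96.KTN
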