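import Pool.Agent.H82.KT.TC

/-!
# CNB: two pairs of times with almost equal `Ph` and `a` near `a'` (problem MP_ee74d2_an)
-/

set_option autoImplicit false

namespace Pool.Agent.H96.KTN

open Finset Pool.Agent.H82.KT

open scoped Classical in
/-- the number of the integers near an integer -/
theorem cnb_near (I : Finset ℤ) (a : ℤ) (R : ℝ) (hR : 1 ≤ R) :
    ((I.filter fun a' : ℤ => |(a : ℝ) - a'| ≤ R).card : ℝ) ≤ 3 * R := by
  have hf0 : 0 ≤ ⌊R⌋ := Int.floor_nonneg.2 (by linarith)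
  have h1 : (I.filter fun a' : ℤ => |(a : ℝ) - a'| ≤ R) ⊆ Icc (a - ⌊R⌋) (a + ⌊R⌋) := by
    intro a' ha'
    rw [mem_filter] at ha'
    have h2 : |a - a'| ≤ ⌊R⌋ := by
      rw [Int.le_floor]
      push_cast
      exact ha'.2
    rw [abs_le] at h2
    rw [mem_Icc]
    constructor <;> linarith [h2.1, h2.2]
  have h3 : ((Icc (a - ⌊R⌋) (a + ⌊R⌋)).card : ℤ) = a + ⌊R⌋ + 1 - (a - ⌊R⌋) :=
    Int.card_Icc_of_le _ _ (by linarith)
  have h4 : ((Icc (a - ⌊R⌋) (a + ⌊R⌋)).card : ℝ) = a + ⌊R⌋ + 1 - (a - ⌊R⌋) := by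
    exact_mod_cast h3
  have h5 : ((I.filter fun a' : ℤ => |(a : ℝ) - a'| ≤ R).card : ℝ) ≤
      ((Icc (a - ⌊R⌋) (a + ⌊R⌋)).card : ℝ) := by
    exact_mod_cast card_le_card h1
  have h6 := Int.floor_le R
  rw [h4] at h5
  linarith

open scoped Classical in
theorem pf_CNB (hFIB : T_FIB) : T_CNB := by
  intro I h J ω ρ H n hJ hω hω1 hH hρJ hd h0 hn
  have hJ0 : 0 < J := by linarith
  -- the sum over `b'`
  have k1 : ∀ s ∈ I, ∀ x ∈ I, ∀ a ∈ I, ∀ b ∈ I, ∀ a' ∈ I,
      ∑ b' ∈ I, (if (Adm ω J s x a b ∧ Adm ω J s x a' b' ∧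
        |Ph s x a b - Ph s x a' b'| ≤ 1 / J ^ 2) ∧
        |(a : ℝ) - a'| ≤ ρ * J then h s * h x * h a * h b * h a' * h b' else 0) ≤
      h s * h x * h a * h b * (if |(a : ℝ) - a'| ≤ ρ * J then 3 * H ^ 2 / ω else 0) := by
    intro s hs x hx a ha b hb a' ha'
    obtain ⟨s0, -⟩ := h0 s hs
    obtain ⟨x0, -⟩ := h0 x hx
    obtain ⟨a0, -⟩ := h0 a ha
    obtain ⟨b0, -⟩ := h0 b hb
    obtain ⟨a'0, a'1⟩ := h0 a' ha'
    have hF := hFIB I J ω (Ph s x a b) s x a' hJ0 hω hω1 hd hs ha'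
    have hp : 0 ≤ h s * h x * h a * h b := by positivity
    by_cases hn' : |(a : ℝ) - a'| ≤ ρ * J
    · rw [if_pos hn']
      calc ∑ b' ∈ I, (if (Adm ω J s x a b ∧ Adm ω J s x a' b' ∧
            |Ph s x a b - Ph s x a' b'| ≤ 1 / J ^ 2) ∧
            |(a : ℝ) - a'| ≤ ρ * J then h s * h x * h a * h b * h a' * h b' else 0)
          ≤ ∑ b' ∈ I, (if Adm ω J s x a' b' ∧ |Ph s x a b - Ph s x a' b'| ≤ 1 / J ^ 2 then
            h s * h x * h a * h b * (H * H) else 0) := by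
            refine sum_le_sum fun b' hb' => ?_
            obtain ⟨b'0, b'1⟩ := h0 b' hb'
            by_cases c1 : Adm ω J s x a' b' ∧ |Ph s x a b - Ph s x a' b'| ≤ 1 / J ^ 2
            · rw [if_pos c1]
              have c2 : h s * h x * h a * h b * h a' * h b' ≤
                  h s * h x * h a * h b * (H * H) := by
                rw [mul_assoc (h s * h x * h a * h b)]
                exact mul_le_mul_of_nonneg_left (mul_le_mul a'1 b'1 b'0 hH) hp
              split_ifs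
              · exact c2
              · exact mul_nonneg hp (mul_nonneg hH hH)
            · rw [if_neg c1, if_neg]
              rintro ⟨⟨-, c3, c4⟩, -⟩
              exact c1 ⟨c3, c4⟩
        _ = ((I.filter fun b' => Adm ω J s x a' b' ∧
            |Ph s x a b - Ph s x a' b'| ≤ 1 / J ^ 2).card : ℝ) *
            (h s * h x * h a * h b * (H * H)) := by
            rw [← sum_filter, sum_const, nsmul_eq_mul]
        _ ≤ 3 / ω * (h s * h x * h a * h b * (H * H)) :=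
            mul_le_mul_of_nonneg_right hF (mul_nonneg hp (mul_nonneg hH hH))
        _ = h s * h x * h a * h b * (3 * H ^ 2 / ω) := by ring
    · rw [if_neg hn', mul_zero]
      refine le_of_eq (sum_eq_zero fun b' _ => ?_)
      rw [if_neg]
      rintro ⟨-, c⟩
      exact hn' c
  -- the sum over `a'`
  have k2 : ∀ s ∈ I, ∀ x ∈ I, ∀ a ∈ I, ∀ b ∈ I,
      ∑ a' ∈ I, ∑ b' ∈ I, (if (Adm ω J s x a b ∧ Adm ω J s x a' b' ∧
        |Ph s x a b - Ph s x a' b'| ≤ 1 / J ^ 2) ∧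
        |(a : ℝ) - a'| ≤ ρ * J then h s * h x * h a * h b * h a' * h b' else 0) ≤
      h s * h x * h a * h b * (9 * ρ * J * H ^ 2 / ω) := by
    intro s hs x hx a ha b hb
    obtain ⟨s0, -⟩ := h0 s hs
    obtain ⟨x0, -⟩ := h0 x hx
    obtain ⟨a0, -⟩ := h0 a ha
    obtain ⟨b0, -⟩ := h0 b hb
    have hp : 0 ≤ h s * h x * h a * h b := by positivity
    refine (sum_le_sum fun a' ha' => k1 s hs x hx a ha b hb a' ha').trans ?_
    rw [← mul_sum]
    refine mul_le_mul_of_nonneg_left ?_ hp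
    rw [← sum_filter, sum_const, nsmul_eq_mul]
    calc ((I.filter fun a' : ℤ => |(a : ℝ) - a'| ≤ ρ * J).card : ℝ) * (3 * H ^ 2 / ω)
        ≤ 3 * (ρ * J) * (3 * H ^ 2 / ω) :=
          mul_le_mul_of_nonneg_right (cnb_near I a (ρ * J) hρJ) (by positivity)
      _ = 9 * ρ * J * H ^ 2 / ω := by ring
  refine (sum_le_sum fun s hs => sum_le_sum fun x hx => sum_le_sum fun a ha =>
    sum_le_sum fun b hb => k2 s hs x hx a ha b hb).trans ?_
  simp only [← sum_mul, ← mul_sum, ← hn]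
  refine le_of_eq ?_
  ring

end Pool.Agent.H96.KTN
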